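import Pool.Agent.Lib.MP_95ac01_nt.Iface

/-!
# MP_95ac01_nt: MLOW (from SOLLOW, REGION, BADASY, ASY)
-/

set_option autoImplicit false

namespace Pool.Agent.Lib.MP_95ac01_nt.H77

open Cub Finset Filter

noncomputable section

theorem card_mult_le (q W : ℕ) (hq : 1 ≤ q) : (mult q W).card ≤ 2 * (W / q) + 1 := by
  classical
  have hq0 : (0 : ℤ) < q := by exact_mod_cast hq
  have h : (mult q W).card ≤ (Icc (-((W / q : ℕ) : ℤ)) ((W / q : ℕ) : ℤ)).card := by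
    apply Finset.card_le_card_of_injOn (fun r => r / (q : ℤ))
    · intro r hr
      rw [Finset.mem_coe, mem_mult] at hr
      obtain ⟨h1, ⟨s, rfl⟩⟩ := hr
      simp only [Finset.coe_Icc, Set.mem_Icc]
      rw [Int.mul_ediv_cancel_left _ hq0.ne']
      rw [abs_mul, abs_of_pos hq0] at h1
      have h2 : |s| ≤ ((W / q : ℕ) : ℤ) := by
        push_cast
        rw [Int.le_ediv_iff_mul_le hq0]
        linarith
      exact abs_le.1 h2
    · intro r hr s hs hrs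
      rw [Finset.mem_coe, mem_mult] at hr hs
      obtain ⟨-, ⟨r', rfl⟩⟩ := hr
      obtain ⟨-, ⟨s', rfl⟩⟩ := hs
      simp only [Int.mul_ediv_cancel_left _ hq0.ne'] at hrs
      rw [hrs]
  refine h.trans (le_of_eq ?_)
  rw [Int.card_Icc]
  omega

theorem one_le_qq (a b K : ℕ) : 1 ≤ qq a b K := by
  unfold qq
  apply Nat.one_le_iff_ne_zero.2
  rw [Finset.prod_ne_zero_iff]
  intro p hp
  rw [Finset.mem_filter] at hp
  exact pow_ne_zero _ hp.2.ne_zero

open Classical in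
/-- The points of one class. -/
def cls (B q : ℕ) (g : Mon → ℝ) (δ : ℝ) (a : Fin 4 → ℤ) : Finset (Fin 4 → ℤ) :=
  (shell B).filter fun x => (∀ i, (q : ℤ) ∣ x i - a i) ∧ |ev g (cx ℝ x)| ≤ δ * (B : ℝ) ^ 3

theorem resid_unique {q : ℕ} {a b x : Fin 4 → ℤ} (ha : a ∈ resid q)
    (hb : b ∈ resid q) (h1 : ∀ i, (q : ℤ) ∣ x i - a i) (h2 : ∀ i, (q : ℤ) ∣ x i - b i) :
    a = b := by
  funext i
  have ha' := (Fintype.mem_piFinset.1 ha) i
  have hb' := (Fintype.mem_piFinset.1 hb) i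
  rw [Finset.mem_Ico] at ha' hb'
  have h3 : (q : ℤ) ∣ a i - b i := by
    have := dvd_sub (h2 i) (h1 i)
    have e : x i - b i - (x i - a i) = a i - b i := by ring
    rwa [e] at this
  have h4 : |a i - b i| < (q : ℤ) := by rw [abs_lt]; constructor <;> linarith [ha'.1, ha'.2, hb'.1, hb'.2]
  have h5 := Int.eq_zero_of_abs_lt_dvd h3 h4
  linarith

/-- The count of good points is at least the sum over the classes minus the bad points. -/
theorem count_aux {A B q H : ℕ} {c : Mon → ℤ} {δ : ℝ} (hH : 1 ≤ H) :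
    (∑ a ∈ solSet q c, ((cls B q (fun m => (c m : ℝ) / H) δ a).card)) ≤
      ((G A B).filter fun x => ev c x ∈ mult q ⌊δ * H * (B : ℝ) ^ 3⌋₊).card + (badSet A B).card := by
  classical
  have hH0 : (0 : ℝ) < H := by exact_mod_cast hH
  rw [← Finset.card_biUnion]
  · refine le_trans (Finset.card_le_card ?_) (Finset.card_union_le _ _)
    intro x hx
    rw [Finset.mem_biUnion] at hx
    obtain ⟨a, ha, hx⟩ := hx
    unfold cls at hx
    rw [Finset.mem_filter] at hx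
    obtain ⟨hx0, hx1, hx2⟩ := hx
    rw [Finset.mem_union]
    by_cases hg : Good A x
    · left
      rw [Finset.mem_filter]
      refine ⟨mem_G.2 ⟨hx0, hg⟩, mem_mult.2 ⟨?_, ?_⟩⟩
      · have e : (fun m => (c m : ℝ) / H) = (1 / (H : ℝ)) • cc ℝ c := by
          funext m; simp [cc]; ring
        rw [e, ev_smul, ev_cast, abs_mul, abs_of_pos (by positivity : 0 < 1 / (H : ℝ))] at hx2
        have h1 : |((ev c x : ℤ) : ℝ)| ≤ δ * H * (B : ℝ) ^ 3 := by
          rw [one_div, inv_mul_le_iff₀ hH0] at hx2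
          linarith
        have h2 : ((ev c x).natAbs : ℝ) ≤ δ * H * (B : ℝ) ^ 3 := by
          rw [Nat.cast_natAbs]; push_cast; exact h1
        have h3 : (ev c x).natAbs ≤ ⌊δ * H * (B : ℝ) ^ 3⌋₊ := Nat.le_floor h2
        rw [Int.abs_eq_natAbs]
        exact_mod_cast h3
      · unfold solSet at ha
        rw [Finset.mem_filter] at ha
        have h1 := ev_congr_mod q c c x a (fun m => by simp) hx1
        have := dvd_add h1 ha.2.2
        simpa using this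
    · right
      unfold badSet
      rw [Finset.mem_filter]
      exact ⟨hx0, hg⟩
  · intro a ha b hb hab
    rw [Function.onFun, Finset.disjoint_left]
    intro x hx hx'
    unfold cls at hx hx'
    rw [Finset.mem_filter] at hx hx'
    unfold solSet at ha hb
    rw [Finset.mem_coe, Finset.mem_filter] at ha hb
    exact hab (resid_unique ha.1 hb.1 hx.2.1 hx'.2.1)

theorem mlow (hS : SolLowStatement) (hR : RegionStatement) (hB : BadAsyStatement)
    (hA : AsyStatement) : MLowStatement := by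
  classical
  intro κ hκ w₁ e
  obtain ⟨c', hc', hsol⟩ := hS w₁ e
  obtain ⟨c₂, hc₂, hreg⟩ := hR κ hκ
  refine ⟨c' * c₂ / 6, by positivity, ?_⟩
  intro δ hδ hδ1 w K hw hK
  obtain ⟨q, hqdef⟩ : ∃ q : ℕ, q = qq 0 w K := ⟨_, rfl⟩
  have hq : 1 ≤ q := by rw [hqdef]; exact one_le_qq _ _ _
  have hq0 : (0 : ℝ) < q := by exact_mod_cast hq
  obtain ⟨B₀, hB₀⟩ := hreg δ hδ hδ1 q hq
  have hε : 0 < c' * c₂ * δ / (2 * q) := by positivity
  have ev1 := (tendsto_order.1 hB).2 _ hε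
  have ev2 := (hA.2.1).eventually_ge_atTop (max (max 1 (B₀ : ℝ)) (q / δ))
  filter_upwards [ev1, ev2, eventually_ge_atTop 1] with H h1 h2 hH
  intro c hc hRC hPC hSC
  rw [← hqdef]
  obtain ⟨B, hBdef⟩ : ∃ B : ℕ, B = Bf H := ⟨_, rfl⟩
  obtain ⟨A, hAdef⟩ : ∃ A : ℕ, A = Af H := ⟨_, rfl⟩
  simp only [← hBdef, ← hAdef] at h1 h2 ⊢
  have hH0 : (0 : ℝ) < H := by exact_mod_cast hH
  have hH1 : (1 : ℝ) ≤ H := by exact_mod_cast hH
  have hB1 : (1 : ℝ) ≤ B := le_trans (le_trans (le_max_left _ _) (le_max_left _ _)) h2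
  have hBB : (B₀ : ℝ) ≤ B := le_trans (le_trans (le_max_right _ _) (le_max_left _ _)) h2
  have hBq : (q : ℝ) / δ ≤ B := le_trans (le_max_right _ _) h2
  have hB0 : (0 : ℝ) < B := by linarith
  have hBB' : B₀ ≤ B := by exact_mod_cast hBB
  obtain ⟨ξ, hξ, hξ1, hξ0, j, hj⟩ := hRC
  have e1 : (fun m => (c m : ℝ) / H) = (1 / (H : ℝ)) • cc ℝ c := by
    funext m; simp [cc]; ring
  have hg : ∀ m, |(c m : ℝ) / H| ≤ 1 := by
    intro m
    rw [abs_div, abs_of_pos hH0, div_le_one hH0]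
    have := mem_box.1 hc m
    have h3 : ((|c m| : ℤ) : ℝ) ≤ ((H : ℤ) : ℝ) := by exact_mod_cast this
    push_cast at h3
    exact h3
  have hg0 : ev (fun m => (c m : ℝ) / H) ξ = 0 := by
    rw [e1, ev_smul, hξ0, mul_zero]
  have hgj : κ ≤ |pd (fun m => (c m : ℝ) / H) j ξ| := by
    rw [e1, pd_smul, abs_mul, abs_of_pos (by positivity : 0 < 1 / (H : ℝ)), one_div,
      inv_mul_eq_div, le_div_iff₀ hH0]
    exact hj
  have hcls : ∀ a ∈ solSet q c, c₂ * δ * ((B : ℝ) / q) ^ 4 ≤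
      ((cls B q (fun m => (c m : ℝ) / H) δ a).card : ℝ) := by
    intro a ha
    unfold solSet at ha
    rw [Finset.mem_filter] at ha
    have := hB₀ B hBB' (fun m => (c m : ℝ) / H) ξ a hg hξ hξ1 hg0 ⟨j, hgj⟩ ha.2.1
    unfold cls
    convert this using 2
  have hsum : (sol q c : ℝ) * (c₂ * δ * ((B : ℝ) / q) ^ 4) ≤
      ((∑ a ∈ solSet q c, ((cls B q (fun m => (c m : ℝ) / H) δ a).card) : ℕ) : ℝ) := by
    push_cast
    unfold sol
    rw [← nsmul_eq_mul]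
    exact Finset.card_nsmul_le_sum _ _ _ hcls
  have hsol' : c' * (q : ℝ) ^ 3 ≤ (sol q c : ℝ) := by
    have := hsol w K c hw hK hPC hSC
    rw [← hqdef] at this
    exact this
  have hcount := count_aux (A := A) (B := B) (q := q) (H := H) (c := c) (δ := δ) hH
  have hcount' : ((∑ a ∈ solSet q c, ((cls B q (fun m => (c m : ℝ) / H) δ a).card) : ℕ) : ℝ) ≤
      (((G A B).filter fun x => ev c x ∈ mult q ⌊δ * H * (B : ℝ) ^ 3⌋₊).card : ℝ) +
        ((badSet A B).card : ℝ) := by exact_mod_cast hcount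
  have hbad : ((badSet A B).card : ℝ) ≤ c' * c₂ * δ / (2 * q) * (B : ℝ) ^ 4 := by
    rw [div_lt_iff₀ (by positivity)] at h1
    exact h1.le
  have hN : c' * c₂ * δ / (2 * q) * (B : ℝ) ^ 4 ≤
      (((G A B).filter fun x => ev c x ∈ mult q ⌊δ * H * (B : ℝ) ^ 3⌋₊).card : ℝ) := by
    have h3 : c' * (q : ℝ) ^ 3 * (c₂ * δ * ((B : ℝ) / q) ^ 4) ≤
        (sol q c : ℝ) * (c₂ * δ * ((B : ℝ) / q) ^ 4) :=
      mul_le_mul_of_nonneg_right hsol' (by positivity)
    have h4 : c' * (q : ℝ) ^ 3 * (c₂ * δ * ((B : ℝ) / q) ^ 4) =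
        2 * (c' * c₂ * δ / (2 * q) * (B : ℝ) ^ 4) := by
      field_simp
    linarith
  have hJ : ((mult q ⌊δ * H * (B : ℝ) ^ 3⌋₊).card : ℝ) ≤ 3 * (δ * H * (B : ℝ) ^ 3) / q := by
    have h3 := card_mult_le q ⌊δ * H * (B : ℝ) ^ 3⌋₊ hq
    have h4 : ((mult q ⌊δ * H * (B : ℝ) ^ 3⌋₊).card : ℝ) ≤
        2 * ((⌊δ * H * (B : ℝ) ^ 3⌋₊ / q : ℕ) : ℝ) + 1 := by exact_mod_cast h3
    have h5 : ((⌊δ * H * (B : ℝ) ^ 3⌋₊ / q : ℕ) : ℝ) ≤ (δ * H * (B : ℝ) ^ 3) / q :=
      le_trans Nat.cast_div_le (div_le_div_of_nonneg_right (Nat.floor_le (by positivity)) hq0.le)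
    have h6 : 1 ≤ (δ * H * (B : ℝ) ^ 3) / q := by
      rw [le_div_iff₀ hq0]
      rw [div_le_iff₀ hδ] at hBq
      have h7 : (B : ℝ) ≤ (B : ℝ) ^ 3 := le_self_pow₀ hB1 (by norm_num)
      have h8 : δ * B ≤ δ * H * (B : ℝ) ^ 3 := by
        calc δ * B = δ * 1 * B := by ring
          _ ≤ δ * H * (B : ℝ) ^ 3 := by
            apply mul_le_mul (mul_le_mul_of_nonneg_left hH1 hδ.le) h7 hB0.le (by positivity)
      linarith
    have h9 : 3 * (δ * H * (B : ℝ) ^ 3) / q = 3 * ((δ * H * (B : ℝ) ^ 3) / q) := by ring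
    rw [h9]; linarith
  have hJ0 : (0 : ℝ) < ((mult q ⌊δ * H * (B : ℝ) ^ 3⌋₊).card : ℝ) := by
    exact_mod_cast (mult_nonempty q _).card_pos
  unfold Mf
  rw [le_div_iff₀ hJ0]
  refine le_trans ?_ hN
  calc c' * c₂ / 6 * B / H * ((mult q ⌊δ * H * (B : ℝ) ^ 3⌋₊).card : ℝ) ≤
        c' * c₂ / 6 * B / H * (3 * (δ * H * (B : ℝ) ^ 3) / q) :=
        mul_le_mul_of_nonneg_left hJ (by positivity)
    _ = c' * c₂ * δ / (2 * q) * (B : ℝ) ^ 4 := by field_simp; ring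

end

end Pool.Agent.Lib.MP_95ac01_nt.H77
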