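import Pool.Agent.Lib.MP_95ac01_nt.Iface

/-!
# MP_95ac01_nt: REGION (from REGA and REGC)
-/

set_option autoImplicit false

namespace Pool.Agent.Lib.MP_95ac01_nt.H77

open Cub Finset Filter

noncomputable section

/-- The vector `x / t` with the `j`-th entry removed. -/
def yb (j : Fin 4) (t : ℝ) (x : Fin 4 → ℤ) : Fin 4 → ℝ := fun l => if l = j then 0 else (x l : ℝ) / t

theorem yb_update (j : Fin 4) (t : ℝ) (x : Fin 4 → ℤ) (s : ℤ) :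
    yb j t (Function.update x j s) = yb j t x := by
  funext l
  unfold yb
  by_cases h : l = j
  · simp [h]
  · simp [h]

theorem update_yb (j : Fin 4) (t : ℝ) (x : Fin 4 → ℤ) :
    Function.update (yb j t x) j ((x j : ℝ) / t) = fun l => (x l : ℝ) / t := by
  funext l
  by_cases h : l = j
  · subst h; simp
  · simp [h, yb]

theorem ceil_window {t ξ : ℝ} {x : ℤ} {n : ℕ} {r : ℝ} (ht : 0 < t) (h1 : ⌈t * ξ⌉ ≤ x)
    (h2 : x < ⌈t * ξ⌉ + n) (hn : (n : ℝ) ≤ r * t) : 0 ≤ (x : ℝ) / t - ξ ∧ (x : ℝ) / t - ξ ≤ r := by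
  have h3 : t * ξ ≤ x := Int.ceil_le.1 h1
  have h4 : (x : ℝ) ≤ t * ξ + n := by
    have h5 : x ≤ ⌈t * ξ⌉ + n - 1 := by omega
    have h6 : (x : ℝ) ≤ ⌈t * ξ⌉ + n - 1 := by exact_mod_cast h5
    have h7 := Int.ceil_lt_add_one (t * ξ)
    linarith
  constructor
  · rw [sub_nonneg, le_div_iff₀ ht]; linarith
  · rw [sub_le_iff_le_add, div_le_iff₀ ht]; nlinarith

theorem bound_aux {B : ℕ} {t : ℝ} {ξ : Fin 4 → ℝ} (hB1 : (1 : ℝ) ≤ B) (ht : t = 3 / 4 * B)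
    (hξ : ∀ i, |ξ i| ≤ 1) (hξ1 : ∃ i, |ξ i| = 1) (x : Fin 4 → ℤ)
    (h : ∀ i, |(x i : ℝ) / t - ξ i| ≤ 1 / 8) :
    (∀ i, |x i| ≤ (B : ℤ)) ∧ ∃ i, (B : ℤ) < 2 * |x i| := by
  have ht0 : 0 < t := by rw [ht]; linarith
  constructor
  · intro i
    have h1 := h i
    have h2 : |(x i : ℝ) / t| ≤ 9 / 8 := by
      have h3 := abs_sub_abs_le_abs_sub ((x i : ℝ) / t) (ξ i)
      have h4 := hξ i
      linarith
    rw [abs_div, abs_of_pos ht0, div_le_iff₀ ht0, ht] at h2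
    have h3 : |(x i : ℝ)| ≤ B := by linarith
    have h4 : ((|x i| : ℤ) : ℝ) ≤ ((B : ℤ) : ℝ) := by push_cast; exact h3
    exact_mod_cast h4
  · obtain ⟨i, hi⟩ := hξ1
    refine ⟨i, ?_⟩
    have h1 := h i
    have h2 : 7 / 8 ≤ |(x i : ℝ) / t| := by
      have h3 := abs_sub_abs_le_abs_sub (ξ i) ((x i : ℝ) / t)
      rw [abs_sub_comm] at h1
      linarith
    rw [abs_div, abs_of_pos ht0, le_div_iff₀ ht0, ht] at h2
    have h3 : (B : ℝ) < 2 * |(x i : ℝ)| := by linarith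
    have h4 : ((B : ℤ) : ℝ) < ((2 * |x i| : ℤ) : ℝ) := by push_cast; exact h3
    exact_mod_cast h4

theorem region (hA : RegAStatement) (hC : RegCStatement) : RegionStatement := by
  classical
  intro κ hκ
  obtain ⟨ρ, η, hρ, hρ8, hη, hη16, hreg⟩ := hA κ hκ
  obtain ⟨C, hC0, hreg2⟩ := hC
  obtain ⟨μ, hμ, hμη, hμρ⟩ : ∃ μ : ℝ, 0 < μ ∧ μ ≤ η ∧ μ ≤ ρ :=
    ⟨min η ρ, lt_min hη hρ, min_le_left _ _, min_le_right _ _⟩
  obtain ⟨c, hc⟩ : ∃ c : ℝ, c = (1 / 2) * (3 / 8 * ρ) ^ 3 * (3 / 8 * μ) := ⟨_, rfl⟩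
  have hc0 : 0 < c := by rw [hc]; positivity
  refine ⟨c / 2, by positivity, ?_⟩
  intro δ hδ hδ1 q hq
  have hq0 : (0 : ℝ) < q := by exact_mod_cast hq
  have hq1 : (1 : ℝ) ≤ q := by exact_mod_cast hq
  obtain ⟨k, hk⟩ : ∃ k : ℝ, k = 3 / 8 * μ * δ / q := ⟨_, rfl⟩
  have hk0 : 0 < k := by rw [hk]; positivity
  obtain ⟨B₀, hB₀⟩ := exists_nat_ge (max 1 (max (164 * q / (3 * μ * δ))
    (2 * C * (q : ℝ) ^ 4 / (k ^ 3 * c * δ))))
  refine ⟨B₀, ?_⟩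
  intro B hB g ξ a hg hξ hξ1 hev hpd hU
  obtain ⟨j, hj⟩ := hpd
  have hBr : (B₀ : ℝ) ≤ B := by exact_mod_cast hB
  have hB1 : (1 : ℝ) ≤ B := le_trans (le_max_left _ _) (le_trans hB₀ hBr)
  have hB2 : 164 * q / (3 * μ * δ) ≤ B :=
    le_trans (le_trans (le_max_left _ _) (le_max_right _ _)) (le_trans hB₀ hBr)
  have hB3 : 2 * C * (q : ℝ) ^ 4 / (k ^ 3 * c * δ) ≤ B :=
    le_trans (le_trans (le_max_right _ _) (le_max_right _ _)) (le_trans hB₀ hBr)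
  have hB0 : (0 : ℝ) < B := by linarith
  obtain ⟨t, ht⟩ : ∃ t : ℝ, t = 3 / 4 * B := ⟨_, rfl⟩
  have ht0 : 0 < t := by rw [ht]; positivity
  have hμδ : μ * δ ≤ ρ := by nlinarith
  have hμδη : μ * δ ≤ η * δ := by nlinarith
  -- the sizes of the windows
  obtain ⟨L₁, hL₁⟩ : ∃ L₁ : ℕ, L₁ = ⌊ρ * t / q⌋₊ := ⟨_, rfl⟩
  obtain ⟨L₂, hL₂⟩ : ∃ L₂ : ℕ, L₂ = ⌊μ * δ * t / q⌋₊ := ⟨_, rfl⟩
  have h41 : 41 ≤ μ * δ * t / q := by
    rw [div_le_iff₀ (by positivity)] at hB2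
    rw [le_div_iff₀ hq0, ht]
    nlinarith
  have h41' : μ * δ * t / q ≤ ρ * t / q := by
    apply div_le_div_of_nonneg_right _ hq0.le
    exact mul_le_mul_of_nonneg_right hμδ ht0.le
  have hLL : L₂ ≤ L₁ := by
    rw [hL₁, hL₂]; exact Nat.floor_le_floor h41'
  have h40 : 40 ≤ L₂ := by
    rw [hL₂]; apply Nat.le_floor; push_cast; linarith
  have hL₁le : (L₁ : ℝ) ≤ ρ * t / q := by rw [hL₁]; exact Nat.floor_le (by positivity)
  have hL₂le : (L₂ : ℝ) ≤ μ * δ * t / q := by rw [hL₂]; exact Nat.floor_le (by positivity)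
  have hL₁ge : 3 / 8 * ρ * B / q ≤ L₁ := by
    have h := (Nat.lt_floor_add_one (ρ * t / q))
    rw [← hL₁] at h
    have h2 : 3 / 8 * ρ * B / q = (ρ * t / q) / 2 := by rw [ht]; ring
    rw [h2]; linarith
  have hL₂ge : k * B ≤ L₂ := by
    have h := (Nat.lt_floor_add_one (μ * δ * t / q))
    rw [← hL₂] at h
    have h2 : k * B = (μ * δ * t / q) / 2 := by rw [ht, hk]; ring
    rw [h2]; linarith
  have hn1 : ((q * L₁ : ℕ) : ℝ) ≤ ρ * t := by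
    push_cast; rw [le_div_iff₀ hq0] at hL₁le; linarith
  have hn2 : ((q * L₂ : ℕ) : ℝ) ≤ (μ * δ) * t := by
    push_cast; rw [le_div_iff₀ hq0] at hL₂le; linarith
  -- the centres
  have hex : ∀ y : Fin 4 → ℝ, ∃ s₀ : ℝ, (∀ l, l ≠ j → |y l - ξ l| ≤ ρ) → |s₀ - ξ j| ≤ 1 / 16 ∧
      ∀ δ : ℝ, 0 < δ → δ ≤ 1 → ∀ s : ℝ, |s - s₀| ≤ η * δ → |ev g (Function.update y j s)| ≤ δ := by
    intro y
    by_cases h : ∀ l, l ≠ j → |y l - ξ l| ≤ ρ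
    · obtain ⟨s, hs⟩ := hreg g ξ j hg hξ hev hj y h
      exact ⟨s, fun _ => hs⟩
    · exact ⟨0, fun h' => absurd h' h⟩
  choose s0 hs0 using hex
  have hkey : ∀ x : Fin 4 → ℤ, (∀ l, l ≠ j → ⌈t * ξ l⌉ ≤ x l ∧ x l < ⌈t * ξ l⌉ + q * L₁) →
      ⌈t * s0 (yb j t x)⌉ ≤ x j → x j < ⌈t * s0 (yb j t x)⌉ + q * L₂ →
      (∀ i, |(x i : ℝ) / t - ξ i| ≤ 1 / 8) ∧ |ev g (fun l => (x l : ℝ) / t)| ≤ δ := by
    intro x h1 h2 h3
    have hl : ∀ l, l ≠ j → 0 ≤ (x l : ℝ) / t - ξ l ∧ (x l : ℝ) / t - ξ l ≤ ρ := by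
      intro l hl
      exact ceil_window ht0 (h1 l hl).1 (by have := (h1 l hl).2; push_cast; exact this) hn1
    have hy : ∀ l, l ≠ j → |yb j t x l - ξ l| ≤ ρ := by
      intro l hlj
      have := hl l hlj
      unfold yb
      rw [if_neg hlj, abs_le]
      exact ⟨by linarith, this.2⟩
    obtain ⟨ha, hb⟩ := hs0 (yb j t x) hy
    have hjj := ceil_window (r := μ * δ) ht0 h2 (by push_cast; exact h3) hn2
    refine ⟨?_, ?_⟩
    · intro i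
      by_cases hij : i = j
      · subst hij
        rw [abs_le] at ha ⊢
        have : μ * δ ≤ 1 / 16 := by nlinarith
        constructor <;> linarith [hjj.1, hjj.2, ha.1, ha.2]
      · have := hl i hij
        rw [abs_le]; constructor <;> linarith
    · have := hb δ hδ hδ1 ((x j : ℝ) / t) (by
        rw [abs_le]; constructor <;> linarith [hjj.1, hjj.2, mul_pos hη hδ])
      rwa [update_yb] at this
  have hbound : ∀ x : Fin 4 → ℤ, (∀ i, |(x i : ℝ) / t - ξ i| ≤ 1 / 8) →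
      (∀ i, |x i| ≤ (B : ℤ)) ∧ ∃ i, (B : ℤ) < 2 * |x i| :=
    fun x h => bound_aux hB1 ht hξ hξ1 x h
  have hmain := hreg2 j q L₁ L₂ B a (fun l => ⌈t * ξ l⌉) (fun x => ⌈t * s0 (yb j t x)⌉) hq h40 hLL hU
    (fun x s => by rw [yb_update])
    (by
      intro x h1 h2 h3
      have hb := hbound x (hkey x h1 h2 h3).1
      refine ⟨mem_cube.2 hb.1, ?_⟩
      intro h0
      obtain ⟨i, hi⟩ := hb.2
      rw [h0] at hi
      simp at hi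
      have : (0 : ℝ) ≤ B := hB0.le
      have h5 : (0:ℤ) ≤ B := by positivity
      omega)
  have hcard : (((cube B).filter fun x => Prim x ∧ (∀ i, (q : ℤ) ∣ x i - a i) ∧
        (∀ l, l ≠ j → ⌈t * ξ l⌉ ≤ x l ∧ x l < ⌈t * ξ l⌉ + q * L₁) ∧ ⌈t * s0 (yb j t x)⌉ ≤ x j ∧
          x j < ⌈t * s0 (yb j t x)⌉ + q * L₂).card : ℝ) ≤
      (((shell B).filter fun x => (∀ i, (q : ℤ) ∣ x i - a i) ∧
          |ev g (cx ℝ x)| ≤ δ * (B : ℝ) ^ 3).card : ℝ) := by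
    have : ((cube B).filter fun x => Prim x ∧ (∀ i, (q : ℤ) ∣ x i - a i) ∧
        (∀ l, l ≠ j → ⌈t * ξ l⌉ ≤ x l ∧ x l < ⌈t * ξ l⌉ + q * L₁) ∧ ⌈t * s0 (yb j t x)⌉ ≤ x j ∧
          x j < ⌈t * s0 (yb j t x)⌉ + q * L₂) ⊆
      ((shell B).filter fun x => (∀ i, (q : ℤ) ∣ x i - a i) ∧
          |ev g (cx ℝ x)| ≤ δ * (B : ℝ) ^ 3) := by
      intro x hx
      rw [Finset.mem_filter] at hx ⊢
      obtain ⟨hx0, hx1, hx2, hx3, hx4, hx5⟩ := hx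
      have hk1 := hkey x hx3 hx4 hx5
      have hb := hbound x hk1.1
      refine ⟨mem_shell.2 ⟨hb.1, hx1, hb.2⟩, hx2, ?_⟩
      have h1 : cx ℝ x = fun i => t * ((x i : ℝ) / t) := by
        funext i; unfold cx; field_simp
      rw [h1, ev_smul_x, abs_mul, abs_of_pos (by positivity : 0 < t ^ 3)]
      have h2 : t ^ 3 ≤ (B : ℝ) ^ 3 := by
        apply pow_le_pow_left₀ ht0.le; rw [ht]; linarith
      calc t ^ 3 * |ev g (fun i => (x i : ℝ) / t)| ≤ (B : ℝ) ^ 3 * δ :=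
            mul_le_mul h2 hk1.2 (abs_nonneg _) (by positivity)
        _ = δ * (B : ℝ) ^ 3 := by ring
    exact_mod_cast Finset.card_le_card this
  refine le_trans ?_ (le_trans hmain hcard)
  -- the final inequality
  have hkB : 0 < k * B := by positivity
  have e1 : c * δ * ((B : ℝ) / q) ^ 4 ≤ ((L₁ : ℝ) ^ 3 * L₂) / 2 := by
    have h1 : (3 / 8 * ρ * B / q) ^ 3 ≤ (L₁ : ℝ) ^ 3 := pow_le_pow_left₀ (by positivity) hL₁ge 3
    have h2 : (3 / 8 * ρ * B / q) ^ 3 * (k * B) ≤ (L₁ : ℝ) ^ 3 * L₂ :=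
      mul_le_mul h1 hL₂ge hkB.le (by positivity)
    have h3 : c * δ * ((B : ℝ) / q) ^ 4 = (3 / 8 * ρ * B / q) ^ 3 * (k * B) / 2 := by
      rw [hc, hk]; field_simp
    rw [h3]; linarith
  have e2 : C * (B : ℝ) ^ 4 / (L₂ : ℝ) ^ 3 ≤ c / 2 * δ * ((B : ℝ) / q) ^ 4 := by
    have h1 : (k * B) ^ 3 ≤ (L₂ : ℝ) ^ 3 := pow_le_pow_left₀ hkB.le hL₂ge 3
    have h2 : C * (B : ℝ) ^ 4 / (L₂ : ℝ) ^ 3 ≤ C * (B : ℝ) ^ 4 / (k * B) ^ 3 :=
      div_le_div_of_nonneg_left (by positivity) (by positivity) h1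
    refine le_trans h2 ?_
    have h3 : C * (B : ℝ) ^ 4 / (k * B) ^ 3 = C * B / k ^ 3 := by
      field_simp
    rw [h3]
    rw [div_le_iff₀ (by positivity)] at hB3 ⊢
    have h4 : (1 : ℝ) ≤ (B : ℝ) ^ 3 := one_le_pow₀ hB1
    have h5 : c / 2 * δ * ((B : ℝ) / q) ^ 4 * k ^ 3 = (B * (k ^ 3 * c * δ)) * (B : ℝ) ^ 3 / (2 * (q : ℝ) ^ 4) := by
      field_simp
    have h6 : C * B = (2 * C * (q : ℝ) ^ 4) * B / (2 * (q : ℝ) ^ 4) := by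
      field_simp
    rw [h5, h6]
    apply div_le_div_of_nonneg_right _ (by positivity)
    have h7 : (B : ℝ) ≤ (B : ℝ) ^ 3 := le_self_pow₀ hB1 (by norm_num)
    calc 2 * C * (q : ℝ) ^ 4 * B ≤ (B * (k ^ 3 * c * δ)) * B :=
          mul_le_mul_of_nonneg_right hB3 hB0.le
      _ ≤ (B * (k ^ 3 * c * δ)) * (B : ℝ) ^ 3 :=
          mul_le_mul_of_nonneg_left h7 (by positivity)
  have e3 : c / 2 * δ * ((B : ℝ) / q) ^ 4 = c * δ * ((B : ℝ) / q) ^ 4 - c / 2 * δ * ((B : ℝ) / q) ^ 4 := by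
    ring
  rw [e3]
  linarith

end

end Pool.Agent.Lib.MP_95ac01_nt.H77
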